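import Mathlib

/-!
Basic notions for almost disjoint families on the natural numbers, the cardinals
b and s, and a transfinite recursion lemma of length continuum.
-/

open Cardinal Set Filter

namespace Pool.Agent.WTight

/-- `A` is an almost disjoint family of infinite subsets of `ℕ`. -/
def IsAD (A : Set (Set ℕ)) : Prop :=
  (∀ a ∈ A, a.Infinite) ∧ ∀ a ∈ A, ∀ b ∈ A, a ≠ b → (a ∩ b).Finite

/-- `A` is a MAD family: an infinite almost disjoint family which is maximal under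
inclusion among almost disjoint families. -/
def IsMAD (A : Set (Set ℕ)) : Prop :=
  A.Infinite ∧ IsAD A ∧ ∀ A' : Set (Set ℕ), IsAD A' → A ⊆ A' → A' = A

/-- `x` is not in the ideal generated by `A` and the finite sets. -/
def Pos (A : Set (Set ℕ)) (x : Set ℕ) : Prop :=
  ∀ F : Finset (Set ℕ), (↑F : Set (Set ℕ)) ⊆ A → (x \ ⋃ a ∈ F, a).Infinite

/-- The bounding number. -/
noncomputable def bNum : Cardinal.{0} :=
  sInf {κ : Cardinal.{0} | ∃ F : Set (ℕ → ℕ), #F = κ ∧
    ∀ g : ℕ → ℕ, ∃ f ∈ F, ¬ ∀ᶠ n in atTop, f n ≤ g n}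

/-- The splitting number. -/
noncomputable def sNum : Cardinal.{0} :=
  sInf {κ : Cardinal.{0} | ∃ F : Set (Set ℕ), #F = κ ∧
    ∀ x : Set ℕ, x.Infinite → ∃ S ∈ F, (x ∩ S).Infinite ∧ (x \ S).Infinite}

lemma exists_unsplit {κ : Type} (S : κ → Set ℕ) (h : #κ < sNum) :
    ∃ x : Set ℕ, x.Infinite ∧ ∀ i, (x ∩ S i).Finite ∨ (x \ S i).Finite := by
  by_contra hcon
  push Not at hcon
  have h1 : sNum ≤ #(Set.range S) := by
    apply csInf_le'
    refine ⟨Set.range S, rfl, ?_⟩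
    intro x hx
    obtain ⟨i, h1, h2⟩ := hcon x hx
    exact ⟨S i, ⟨i, rfl⟩, h1, h2⟩
  exact absurd (h1.trans mk_range_le) (not_le.mpr h)

lemma exists_bound {κ : Type} (f : κ → ℕ → ℕ) (h : #κ < bNum) :
    ∃ g : ℕ → ℕ, ∀ i, ∀ᶠ n in atTop, f i n ≤ g n := by
  by_contra hcon
  have h1 : bNum ≤ #(Set.range f) := by
    apply csInf_le'
    refine ⟨Set.range f, rfl, ?_⟩
    intro g
    by_contra hg
    apply hcon
    refine ⟨g, fun i => ?_⟩
    by_contra hi
    exact hg ⟨f i, ⟨i, rfl⟩, hi⟩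
  exact absurd (h1.trans mk_range_le) (not_le.mpr h)

lemma exists_unbounded : ∃ F : Set (ℕ → ℕ), #F = bNum ∧
    ∀ g : ℕ → ℕ, ∃ f ∈ F, ¬ ∀ᶠ n in atTop, f n ≤ g n := by
  have : bNum ∈ {κ : Cardinal.{0} | ∃ F : Set (ℕ → ℕ), #F = κ ∧
    ∀ g : ℕ → ℕ, ∃ f ∈ F, ¬ ∀ᶠ n in atTop, f n ≤ g n} := by
    apply csInf_mem
    refine ⟨#(Set.univ : Set (ℕ → ℕ)), Set.univ, rfl, ?_⟩
    intro g
    refine ⟨fun n => g n + 1, mem_univ _, ?_⟩
    intro hev
    obtain ⟨n, hn⟩ := hev.exists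
    simp at hn
  exact this

/-- greedy selection with strictly increasing values of `ι`. -/
lemma exists_greedy {α : Type} (ι : α → ℕ) (T : ℕ → Set α)
    (h : ∀ i m, ∃ x ∈ T i, m < ι x) :
    ∃ f : ℕ → α, (∀ i, f i ∈ T i) ∧ StrictMono (fun i => ι (f i)) := by
  choose p hp hlt using h
  let f : ℕ → α := fun n => Nat.rec (p 0 0) (fun k y => p (k+1) (ι y)) n
  refine ⟨f, ?_, strictMono_nat_of_lt_succ ?_⟩
  · intro i
    cases i with
    | zero => exact hp 0 0
    | succ k => exact hp (k+1) _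
  · intro n
    exact hlt (n+1) _

/-- Transfinite recursion of length continuum. -/
theorem exists_family {T : Type} (hT : #T ≤ 𝔠) (P : Set ℕ → Prop) (Done : T → Set ℕ → Prop)
    (Stuck : T → Set (Set ℕ) → Prop) (A₀ : Set (Set ℕ)) (hA₀ : #A₀ < 𝔠) (hAD₀ : IsAD A₀)
    (hP₀ : ∀ a ∈ A₀, P a)
    (h : ∀ t, ∀ F : Set (Set ℕ), #F < 𝔠 → IsAD F → (∀ a ∈ F, P a) →
      (∃ a ∈ F, Done t a) ∨
      (∃ c : Set ℕ, c.Infinite ∧ P c ∧ Done t c ∧ ∀ a ∈ F, (a ∩ c).Finite) ∨ Stuck t F) :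
    ∃ A : Set (Set ℕ), A₀ ⊆ A ∧ IsAD A ∧ (∀ a ∈ A, P a) ∧
      ∀ t, (∃ a ∈ A, Done t a) ∨ ∃ F ⊆ A, #F < 𝔠 ∧ Stuck t F := by
  classical
  rcases isEmpty_or_nonempty T with hT0 | hT0
  · exact ⟨A₀, Subset.rfl, hAD₀, hP₀, fun t => isEmptyElim t⟩
  let J := (Cardinal.ord 𝔠).ToType
  have hJ : #J = 𝔠 := by simp [J]
  obtain ⟨e, he⟩ : ∃ e : J → T, Function.Surjective e := by
    have h1 : #T ≤ #J := by rw [hJ]; exact hT
    obtain ⟨g⟩ := h1
    exact ⟨Function.invFun g, Function.invFun_surjective g.injective⟩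
  let good (prev : Set (Set ℕ)) (t : T) (c : Set ℕ) : Prop :=
    c.Infinite ∧ P c ∧ Done t c ∧ ∀ a ∈ prev, (a ∩ c).Finite
  let step (prev : Set (Set ℕ)) (t : T) : Set (Set ℕ) :=
    if hh : ∃ c, good prev t c then {Classical.choose hh} else ∅
  let G : J → Set (Set ℕ) := (wellFounded_lt (α := J)).fix
    (fun j ih => step (A₀ ∪ ⋃ i : {i // i < j}, ih i.1 i.2) (e j))
  have hG : ∀ j, G j = step (A₀ ∪ ⋃ i : {i // i < j}, G i.1) (e j) := by
    intro j
    exact (wellFounded_lt (α := J)).fix_eq _ j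
  let prev : J → Set (Set ℕ) := fun j => ⋃ i : {i // i < j}, G i.1
  have hGmem : ∀ j c, c ∈ G j → good (A₀ ∪ prev j) (e j) c := by
    intro j c hc
    rw [hG j] at hc
    simp only [step] at hc
    split_ifs at hc with hh
    · rw [mem_singleton_iff] at hc
      rw [hc]
      exact Classical.choose_spec hh
    · exact absurd hc (notMem_empty _)
  have hGsub : ∀ j, (G j).Subsingleton := by
    intro j
    rw [hG j]
    simp only [step]
    split_ifs with hh
    · exact subsingleton_singleton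
    · exact subsingleton_empty
  have hprevsub : ∀ j, A₀ ∪ prev j ⊆ A₀ ∪ ⋃ i, G i := by
    intro j
    exact union_subset_union_right _ (iUnion_subset (fun i => subset_iUnion G i.1))
  have hprevcard : ∀ j, #(A₀ ∪ prev j : Set (Set ℕ)) < 𝔠 := by
    intro j
    have hch : ∀ a : prev j, ∃ i : {i // i < j}, a.1 ∈ G i.1 := by
      intro a
      exact mem_iUnion.mp a.2
    choose q hq using hch
    have hinj : Function.Injective q := by
      intro a a' haa
      apply Subtype.ext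
      have h1 := hq a
      have h2 := hq a'
      rw [← haa] at h2
      exact hGsub _ h1 h2
    have h1 : #(prev j) ≤ #{i // i < j} := Cardinal.mk_le_of_injective hinj
    have h2 : #{i // i < j} < 𝔠 := by
      have h3 := Cardinal.mk_Iio_lt (α := J) j (by simp [J])
      have h4 : #(Iio j) = #{i // i < j} := rfl
      rw [← h4]
      rw [hJ] at h3
      exact h3
    exact (mk_union_le A₀ (prev j)).trans_lt
      (add_lt_of_lt aleph0_le_continuum hA₀ (h1.trans_lt h2))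
  have hADmain : IsAD (A₀ ∪ ⋃ i, G i) := by
    refine ⟨?_, ?_⟩
    · rintro a (ha | ha)
      · exact hAD₀.1 a ha
      · obtain ⟨i, hi⟩ := mem_iUnion.mp ha
        exact (hGmem i a hi).1
    · rintro a (ha | ha) b (hb | hb) hab
      · exact hAD₀.2 a ha b hb hab
      · obtain ⟨j, hj⟩ := mem_iUnion.mp hb
        exact (hGmem j b hj).2.2.2 a (Or.inl ha)
      · obtain ⟨i, hi⟩ := mem_iUnion.mp ha
        have := (hGmem i a hi).2.2.2 b (Or.inl hb)
        rwa [inter_comm] at this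
      · obtain ⟨i, hi⟩ := mem_iUnion.mp ha
        obtain ⟨j, hj⟩ := mem_iUnion.mp hb
        rcases lt_trichotomy i j with hij | hij | hij
        · exact (hGmem j b hj).2.2.2 a (Or.inr (mem_iUnion.mpr ⟨⟨i, hij⟩, hi⟩))
        · subst hij
          exact absurd (hGsub i hi hj) hab
        · have := (hGmem i a hi).2.2.2 b (Or.inr (mem_iUnion.mpr ⟨⟨j, hij⟩, hj⟩))
          rwa [inter_comm] at this
  refine ⟨A₀ ∪ ⋃ i, G i, subset_union_left, hADmain, ?_, ?_⟩
  · rintro a (ha | ha)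
    · exact hP₀ a ha
    · obtain ⟨i, hi⟩ := mem_iUnion.mp ha
      exact (hGmem i a hi).2.1
  · intro t
    obtain ⟨j, rfl⟩ := he t
    have hAD : IsAD (A₀ ∪ prev j) :=
      ⟨fun a ha => hADmain.1 a (hprevsub j ha),
        fun a ha b hb hab => hADmain.2 a (hprevsub j ha) b (hprevsub j hb) hab⟩
    have hP : ∀ a ∈ A₀ ∪ prev j, P a := by
      rintro a (ha | ha)
      · exact hP₀ a ha
      · obtain ⟨i, hi⟩ := mem_iUnion.mp ha
        exact (hGmem i.1 a hi).2.1
    rcases h (e j) (A₀ ∪ prev j) (hprevcard j) hAD hP with ⟨a, ha, hd⟩ | hc | hst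
    · exact Or.inl ⟨a, hprevsub j ha, hd⟩
    · left
      have hh : ∃ c, good (A₀ ∪ prev j) (e j) c := hc
      have hmem : Classical.choose hh ∈ G j := by
        rw [hG j]
        simp only [step]
        rw [dif_pos hh]
        exact mem_singleton _
      exact ⟨Classical.choose hh, Or.inr (mem_iUnion.mpr ⟨j, hmem⟩),
        (Classical.choose_spec hh).2.2.1⟩
    · exact Or.inr ⟨A₀ ∪ prev j, hprevsub j, hprevcard j, hst⟩

/-- An AD family meeting every infinite set in an infinite set is maximal. -/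
lemma isMAD_of {A : Set (Set ℕ)} (hinf : A.Infinite) (hA : IsAD A)
    (hmax : ∀ x : Set ℕ, x.Infinite → ∃ a ∈ A, (a ∩ x).Infinite) : IsMAD A := by
  refine ⟨hinf, hA, ?_⟩
  intro A' hA' hsub
  apply Subset.antisymm _ hsub
  intro x hx
  obtain ⟨a, ha, hax⟩ := hmax x (hA'.1 x hx)
  by_contra hxA
  have hne : a ≠ x := by
    rintro rfl
    exact hxA ha
  exact hax (hA'.2 a (hsub ha) x hx hne)

end Pool.Agent.WTight
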