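import Pool.Agent.WTight.Joint

/-!
For every strictly increasing `g` a MAD family that is tight for all systems which are
infinitely often dense in the intervals `[g k, g (k+1))`.
-/

open Cardinal Set Filter

namespace Pool.Agent.WTight

/-- For every `N` there are arbitrarily large `k` such that each of `B 0, ..., B N` has at least
`N` points in the interval `[g k, g (k+1))`. -/
def DenseIn (g : ℕ → ℕ) (B : ℕ → Set ℕ) : Prop :=
  ∀ N K : ℕ, ∃ k, K < k ∧ ∀ n ≤ N, N ≤ (B n ∩ Set.Ico (g k) (g (k + 1))).ncard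

lemma lvl_fib {g : ℕ → ℕ} (hg : StrictMono g) {k : ℕ} (hk : 0 < k) (x : ℕ) :
    lvl g x = k ↔ x ∈ Set.Ico (g k) (g (k + 1)) := by
  constructor
  · intro h
    unfold lvl at h
    rw [Nat.findGreatest_eq_iff] at h
    obtain ⟨_, h2, h3⟩ := h
    have h4 : g k ≤ x := h2 hk.ne'
    refine ⟨h4, ?_⟩
    by_contra hge
    have h5 : g (k + 1) ≤ x := not_lt.mp hge
    exact h3 (Nat.lt_succ_self k) ((hg.le_apply).trans h5) h5
  · rintro ⟨h1, h2⟩
    exact lvl_eq hg h1 h2

lemma denseIn_iff {g : ℕ → ℕ} (hg : StrictMono g) (B : ℕ → Set ℕ) :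
    DenseIn g B ↔ JLarge (lvl g) B := by
  unfold DenseIn JLarge
  have h : ∀ k, 0 < k → ∀ n, B n ∩ Set.Ico (g k) (g (k + 1)) = {x | x ∈ B n ∧ lvl g x = k} := by
    intro k hk n
    ext x
    constructor
    · rintro ⟨hx, hxk⟩
      exact ⟨hx, (lvl_fib hg hk x).mpr hxk⟩
    · rintro ⟨hx, hxk⟩
      exact ⟨hx, (lvl_fib hg hk x).mp hxk⟩
  constructor
  · intro hB N K
    obtain ⟨k, hk, hkn⟩ := hB N K
    refine ⟨k, hk, fun n hn => ?_⟩
    rw [← h k (by omega) n]
    exact hkn n hn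
  · intro hB N K
    obtain ⟨k, hk, hkn⟩ := hB N K
    refine ⟨k, hk, fun n hn => ?_⟩
    rw [h k (by omega) n]
    exact hkn n hn

theorem exists_bounded_growth (hs : sNum = 𝔠) (g : ℕ → ℕ) (hg : StrictMono g) :
    ∃ A : Set (Set ℕ), IsMAD A ∧ ∀ B : ℕ → Set ℕ, DenseIn g B →
      (∀ n, Pos A (B n)) ∧ ∃ a ∈ A, ∀ n, (a ∩ B n).Infinite := by
  by_cases hlarge : JLarge (lvl g) (fun _ => Set.univ)
  · obtain ⟨A, hA, _, hA2⟩ := exists_tight_large hs (lvl g) (lvl_finite hg) hlarge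
    exact ⟨A, hA, fun B hB => hA2 B ((denseIn_iff hg B).mp hB)⟩
  · obtain ⟨A, hA, _, _⟩ := exists_tight_large hs (lvl (nice id))
      (lvl_finite (nice_strictMono id)) (nice_large id)
    refine ⟨A, hA, fun B hB => ?_⟩
    exfalso
    apply hlarge
    have hB' := (denseIn_iff hg B).mp hB
    intro N K
    obtain ⟨k, hk, hkn⟩ := hB' N K
    refine ⟨k, hk, fun n hn => (hkn n hn).trans ?_⟩
    apply ncard_le_ncard
    · rintro x ⟨_, hx⟩
      exact ⟨mem_univ _, hx⟩
    · exact (fib_finite (lvl_finite hg) k).subset (fun x hx => hx.2)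

end Pool.Agent.WTight
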