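import Pool.Agent.WTight.Large

/-!
For a finite-to-one map `ι` on the natural numbers: a MAD family of sets on which `ι` is
injective, tight for all systems that are jointly large with respect to the fibres of `ι`.
Then: `b` many MAD families which are jointly tight.
-/

open Cardinal Set Filter

namespace Pool.Agent.WTight

/-- The sets `B n` are jointly large with respect to the fibres of `ι`. -/
def JLarge (ι : ℕ → ℕ) (B : ℕ → Set ℕ) : Prop :=
  ∀ N K : ℕ, ∃ k, K < k ∧ ∀ n ≤ N, N ≤ {x | x ∈ B n ∧ ι x = k}.ncard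

lemma fib_finite {ι : ℕ → ℕ} (hι : ∀ m, {x | ι x ≤ m}.Finite) (k : ℕ) : {x | ι x = k}.Finite :=
  (hι k).subset (fun _ hx => le_of_eq hx)

lemma thin_ncard {ι : ℕ → ℕ} {a : Set ℕ} (ha : InjOn ι a) (k : ℕ) :
    {x | x ∈ a ∧ ι x = k}.ncard ≤ 1 := by
  have h : {x | x ∈ a ∧ ι x = k}.Subsingleton := by
    rintro x ⟨hx, hxk⟩ y ⟨hy, hyk⟩
    exact ha hx hy (hxk.trans hyk.symm)
  rcases h.eq_empty_or_singleton with h1 | ⟨x, h1⟩
  · rw [h1]; simp
  · rw [h1]; simp

lemma JLarge.diff {ι : ℕ → ℕ} {B : ℕ → Set ℕ} (hι : ∀ m, {x | ι x ≤ m}.Finite)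
    (hB : JLarge ι B) (F : Finset (Set ℕ)) (hF : ∀ a ∈ F, InjOn ι a) :
    JLarge ι (fun n => B n \ ⋃ a ∈ F, a) := by
  intro N K
  obtain ⟨k, hk, hkn⟩ := hB (N + F.card) K
  refine ⟨k, hk, ?_⟩
  intro n hn
  have h1 := hkn n (by omega)
  have h2 : {x | x ∈ B n ∧ ι x = k} ⊆
      {x | x ∈ B n \ ⋃ a ∈ F, a ∧ ι x = k} ∪ ⋃ a ∈ F, {x | x ∈ a ∧ ι x = k} := by
    rintro x ⟨hx, hxk⟩
    by_cases hxU : x ∈ ⋃ a ∈ F, a
    · right
      rw [mem_iUnion₂] at hxU ⊢
      obtain ⟨a, ha, hxa⟩ := hxU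
      exact ⟨a, ha, hxa, hxk⟩
    · exact Or.inl ⟨⟨hx, hxU⟩, hxk⟩
  have hfin1 : {x | x ∈ B n \ ⋃ a ∈ F, a ∧ ι x = k}.Finite :=
    (fib_finite hι k).subset (fun x hx => hx.2)
  have hfin2 : (⋃ a ∈ F, {x | x ∈ a ∧ ι x = k}).Finite := by
    apply (fib_finite hι k).subset
    intro x hx
    rw [mem_iUnion₂] at hx
    obtain ⟨a, _, _, hx⟩ := hx
    exact hx
  have h3 := ncard_le_ncard h2 (hfin1.union hfin2)
  have h4 := ncard_union_le {x | x ∈ B n \ ⋃ a ∈ F, a ∧ ι x = k} (⋃ a ∈ F, {x | x ∈ a ∧ ι x = k})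
  have h5 : (⋃ a ∈ F, {x | x ∈ a ∧ ι x = k}).ncard ≤ F.card := by
    apply (Finset.set_ncard_biUnion_le F (fun a => {x | x ∈ a ∧ ι x = k})).trans
    calc ∑ a ∈ F, {x | x ∈ a ∧ ι x = k}.ncard ≤ ∑ a ∈ F, 1 :=
          Finset.sum_le_sum (fun a ha => thin_ncard (hF a ha) k)
      _ = F.card := by simp
  show N ≤ {x | x ∈ B n \ ⋃ a ∈ F, a ∧ ι x = k}.ncard
  omega

lemma JLarge.infinite {ι : ℕ → ℕ} {B : ℕ → Set ℕ} (hB : JLarge ι B) (n : ℕ) :
    (B n).Infinite := by
  intro hfin
  obtain ⟨k, _, hk⟩ := hB (n + (B n).ncard + 1) 0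
  have h1 := hk n (by omega)
  have h2 : {x | x ∈ B n ∧ ι x = k}.ncard ≤ (B n).ncard :=
    ncard_le_ncard (fun x hx => hx.1) hfin
  omega

lemma mk_seq_set : #(ℕ → Set ℕ) = 𝔠 := by
  have h1 : #(Set ℕ) = 𝔠 := by simp
  rw [← Cardinal.power_def, h1]
  simp

/-- The MAD family attached to a finite-to-one map with unbounded fibres. -/
theorem exists_tight_large (hs : sNum = 𝔠) (ι : ℕ → ℕ) (hι : ∀ m, {x | ι x ≤ m}.Finite)
    (hfib : JLarge ι (fun _ => Set.univ)) :
    ∃ A : Set (Set ℕ), IsMAD A ∧ (∀ a ∈ A, InjOn ι a) ∧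
      ∀ B : ℕ → Set ℕ, JLarge ι B →
        (∀ n, Pos A (B n)) ∧ ∃ a ∈ A, ∀ n, (a ∩ B n).Infinite := by
  classical
  let T := {B : ℕ → Set ℕ // JLarge ι B} ⊕ {x : Set ℕ // x.Infinite}
  have hT : #T ≤ 𝔠 := by
    have h1 : #T = #{B : ℕ → Set ℕ // JLarge ι B} + #{x : Set ℕ // x.Infinite} := by
      simp [T]
    rw [h1]
    have h2 : #{B : ℕ → Set ℕ // JLarge ι B} ≤ 𝔠 := (mk_subtype_le _).trans mk_seq_set.le
    have h3 : #{x : Set ℕ // x.Infinite} ≤ 𝔠 := (mk_subtype_le _).trans (by simp)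
    calc _ ≤ 𝔠 + 𝔠 := add_le_add h2 h3
      _ = 𝔠 := continuum_add_self
  let Done : T → Set ℕ → Prop :=
    Sum.elim (fun B a => ∀ n, (a ∩ B.1 n).Infinite) (fun x a => (a ∩ x.1).Infinite)
  obtain ⟨A, _, hAD, hthin, hdone⟩ := exists_family hT (fun a => InjOn ι a) Done
    (fun _ _ => False) ∅ (by simp [continuum_pos]) ⟨by simp, by simp⟩ (by simp) (by
      intro t F hF hFAD hFthin
      rcases t with ⟨B, hB⟩ | ⟨x, hx⟩
      · right; left
        let P : ℕ → Finset ℕ := fun k => (fib_finite hι k).toFinset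
        have hPmem : ∀ k x, x ∈ P k ↔ ι x = k := by
          intro k x
          simp [P]
        obtain ⟨c, hc1, hc2, hc3⟩ := step_large hs F hF P
          (by
            intro k l x hk hl
            rw [hPmem] at hk hl
            exact hk.symm.trans hl)
          (by
            intro a ha
            refine ⟨1, ?_⟩
            apply Eventually.of_forall
            intro k
            have h1 : ((↑(P k) : Set ℕ) ∩ a) = {x | x ∈ a ∧ ι x = k} := by
              ext x
              simp only [mem_inter_iff, Finset.mem_coe, hPmem, mem_ofPred_eq]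
              exact and_comm
            rw [h1]
            exact thin_ncard (hFthin a ha) k) B
          (by
            intro N K
            obtain ⟨k, hk, hkn⟩ := hB N K
            refine ⟨k, hk, ?_⟩
            intro n hn
            have h1 : ((↑(P k) : Set ℕ) ∩ B n) = {x | x ∈ B n ∧ ι x = k} := by
              ext x
              simp only [mem_inter_iff, Finset.mem_coe, hPmem, mem_ofPred_eq]
              exact and_comm
            rw [h1]
            exact hkn n hn)
        refine ⟨c, (hc1 0).mono inter_subset_left, ?_, hc1, hc3⟩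
        intro x hx y hy hxy
        obtain ⟨k, hk, hu⟩ := hc2 x hx
        apply hu y hy
        rw [hPmem] at hk ⊢
        rw [← hxy, hk]
      · by_cases hex : ∃ a ∈ F, (a ∩ x).Infinite
        · exact Or.inl hex
        · right; left
          push Not at hex
          obtain ⟨f, hf, hfm⟩ := exists_greedy ι (fun _ => x) (by
            intro _ m
            by_contra hcon
            push Not at hcon
            exact hx ((hι m).subset hcon))
          have hfinj : Function.Injective f := by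
            intro i j hij
            apply hfm.injective
            simp only [hij]
          refine ⟨Set.range f, infinite_range_of_injective hfinj, ?_, ?_, ?_⟩
          · rintro _ ⟨i, rfl⟩ _ ⟨j, rfl⟩ hij
            rw [hfm.injective hij]
          · show (Set.range f ∩ x).Infinite
            rw [inter_eq_left.mpr (by rintro _ ⟨i, rfl⟩; exact hf i)]
            exact infinite_range_of_injective hfinj
          · intro a ha
            apply (hex a ha).subset
            rintro y ⟨hya, i, rfl⟩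
            exact ⟨hya, hf i⟩)
  have htight : ∀ B : ℕ → Set ℕ, JLarge ι B → ∃ a ∈ A, ∀ n, (a ∩ B n).Infinite := by
    intro B hB
    rcases hdone (Sum.inl ⟨B, hB⟩) with h | ⟨_, _, _, h⟩
    · exact h
    · exact h.elim
  have hmax : ∀ x : Set ℕ, x.Infinite → ∃ a ∈ A, (a ∩ x).Infinite := by
    intro x hx
    rcases hdone (Sum.inr ⟨x, hx⟩) with h | ⟨_, _, _, h⟩
    · exact h
    · exact h.elim
  have hinf : A.Infinite := by
    intro hfin
    have h1 := hfib.diff hι hfin.toFinset (fun a ha => hthin a (by simpa using ha))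
    obtain ⟨a, ha, hh⟩ := htight _ h1
    apply hh 0
    convert finite_empty
    rw [eq_empty_iff_forall_notMem]
    rintro x ⟨hxa, _, hxU⟩
    apply hxU
    rw [mem_iUnion₂]
    exact ⟨a, by simpa using ha, hxa⟩
  refine ⟨A, isMAD_of hinf hAD hmax, hthin, ?_⟩
  intro B hB
  refine ⟨?_, htight B hB⟩
  intro n F hFA
  exact (hB.diff hι F (fun a ha => hthin a (hFA ha))).infinite n

end Pool.Agent.WTight
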