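import Pool.Agent.WTight.Families

/-!
A chain of length `b` of fast interval partitions, and `b` many jointly tight MAD families.
-/

open Cardinal Set Filter

namespace Pool.Agent.WTight

/-- the number of the interval `[f n, f (n+1))` containing `x`. -/
def lvl (f : ℕ → ℕ) (x : ℕ) : ℕ := Nat.findGreatest (fun n => f n ≤ x) x

lemma lvl_eq {f : ℕ → ℕ} (hf : StrictMono f) {n x : ℕ} (h1 : f n ≤ x) (h2 : x < f (n + 1)) :
    lvl f x = n := by
  unfold lvl
  rw [Nat.findGreatest_eq_iff]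
  refine ⟨(hf.le_apply).trans h1, fun _ => h1, ?_⟩
  intro m hm _ hfm
  have : f (n + 1) ≤ f m := hf.monotone hm
  omega

lemma lvl_finite {f : ℕ → ℕ} (hf : StrictMono f) (m : ℕ) : {x | lvl f x ≤ m}.Finite := by
  apply (finite_Iio (f (m + 1))).subset
  intro x hx
  by_contra hcon
  have h1 : f (m + 1) ≤ x := not_lt.mp hcon
  have h2 : m + 1 ≤ lvl f x := Nat.le_findGreatest ((hf.le_apply).trans h1) h1
  have h3 : lvl f x ≤ m := hx
  omega

/-- a fast strictly increasing function above `g`. -/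
def nice (g : ℕ → ℕ) : ℕ → ℕ
  | 0 => g 0
  | n + 1 => max (nice g n + n + 1) (g (n + 1))

lemma nice_strictMono (g : ℕ → ℕ) : StrictMono (nice g) := by
  apply strictMono_nat_of_lt_succ
  intro n
  have : nice g (n + 1) = max (nice g n + n + 1) (g (n + 1)) := rfl
  rw [this]
  have := le_max_left (nice g n + n + 1) (g (n + 1))
  omega

lemma le_nice (g : ℕ → ℕ) (n : ℕ) : g n ≤ nice g n := by
  cases n with
  | zero => exact le_refl _
  | succ n => exact le_max_right _ _

lemma nice_large (g : ℕ → ℕ) : JLarge (lvl (nice g)) (fun _ => Set.univ) := by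
  intro N K
  refine ⟨N + K + 1, by omega, ?_⟩
  intro n _
  set k := N + K + 1
  have hk : nice g k + k + 1 ≤ nice g (k + 1) := le_max_left _ _
  have h1 : (↑(Finset.Ico (nice g k) (nice g (k + 1))) : Set ℕ) ⊆
      {x | x ∈ (Set.univ : Set ℕ) ∧ lvl (nice g) x = k} := by
    intro x hx
    rw [Finset.mem_coe, Finset.mem_Ico] at hx
    exact ⟨mem_univ _, lvl_eq (nice_strictMono g) hx.1 hx.2⟩
  have h2 := ncard_le_ncard h1 (fib_finite (lvl_finite (nice_strictMono g)) k |>.subset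
    (fun x hx => hx.2))
  rw [ncard_coe_finset, Nat.card_Ico] at h2
  show N ≤ {x | x ∈ (Set.univ : Set ℕ) ∧ lvl (nice g) x = k}.ncard
  omega

/-- growth function of a system of infinite sets. -/
lemma exists_growth (B : ℕ → Set ℕ) (hB : ∀ n, (B n).Infinite) :
    ∃ G : ℕ → ℕ, Monotone G ∧ (∀ y, y ≤ G y) ∧
      ∀ y n, n ≤ y → ∃ t : Finset ℕ, t.card = y ∧ ↑t ⊆ B n ∧ ∀ x ∈ t, y ≤ x ∧ x < G y := by
  have h1 : ∀ y n, ∃ t : Finset ℕ, t.card = y ∧ ↑t ⊆ B n ∧ ∀ x ∈ t, y ≤ x := by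
    intro y n
    have h2 : (B n \ Iio y).Infinite := (hB n).sdiff (finite_Iio y)
    obtain ⟨t, ht, hc⟩ := h2.exists_subset_card_eq y
    refine ⟨t, hc, fun x hx => (ht hx).1, fun x hx => ?_⟩
    exact not_lt.mp (ht hx).2
  choose t ht1 ht2 ht3 using h1
  let G0 : ℕ → ℕ := fun y => (Finset.range (y + 1)).sup (fun n => (t y n).sup id + 1)
  refine ⟨fun y => max y ((Finset.range (y + 1)).sup G0), ?_, fun y => le_max_left _ _, ?_⟩
  · intro y y' hyy
    apply max_le_max hyy
    apply Finset.sup_mono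
    intro x hx
    rw [Finset.mem_range] at hx ⊢
    omega
  · intro y n hn
    refine ⟨t y n, ht1 y n, ht2 y n, fun x hx => ⟨ht3 y n x hx, ?_⟩⟩
    have h2 : x ≤ (t y n).sup id := Finset.le_sup (f := id) hx
    have h3 : (t y n).sup id + 1 ≤ G0 y :=
      Finset.le_sup (f := fun n => (t y n).sup id + 1) (Finset.mem_range.mpr (by omega))
    have h4 : G0 y ≤ (Finset.range (y + 1)).sup G0 :=
      Finset.le_sup (f := G0) (Finset.mem_range.mpr (by omega))
    have h5 : (Finset.range (y + 1)).sup G0 ≤ max y ((Finset.range (y + 1)).sup G0) :=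
      le_max_right _ _
    show x < max y ((Finset.range (y + 1)).sup G0)
    omega

/-- Every system of infinite sets is jointly large for all interval partitions given by
functions that are not eventually dominated by a function `H` depending on the system. -/
lemma exists_H (B : ℕ → Set ℕ) (hB : ∀ n, (B n).Infinite) :
    ∃ H : ℕ → ℕ, ∀ f : ℕ → ℕ, StrictMono f → ¬ (∀ᶠ n in atTop, f n ≤ H n) →
      JLarge (lvl f) B := by
  obtain ⟨G, hGm, hGi, hG⟩ := exists_growth B hB
  refine ⟨fun n => G^[n] n, ?_⟩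
  intro f hf hH
  by_contra hcon
  apply hH
  unfold JLarge at hcon
  push Not at hcon
  obtain ⟨N, K, hNK⟩ := hcon
  have h1 : ∀ k, N + K < k → f (k + 1) < G (f k) := by
    intro k hk
    by_contra hge
    have hge' : G (f k) ≤ f (k + 1) := not_lt.mp hge
    obtain ⟨n, hn, hlt⟩ := hNK k (by omega)
    have hkf : k ≤ f k := hf.le_apply
    obtain ⟨t, ht1, ht2, ht3⟩ := hG (f k) n (by omega)
    have h2 : (↑t : Set ℕ) ⊆ {x | x ∈ B n ∧ lvl f x = k} := by
      intro x hx
      refine ⟨ht2 hx, lvl_eq hf (ht3 x hx).1 ((ht3 x hx).2.trans_le hge')⟩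
    have h3 := ncard_le_ncard h2 ((fib_finite (lvl_finite hf) k).subset (fun x hx => hx.2))
    rw [ncard_coe_finset, ht1] at h3
    omega
  set k0 := N + K + 1 with hk0
  have h2 : ∀ m, f (k0 + m) ≤ G^[m] (f k0) := by
    intro m
    induction m with
    | zero => simp
    | succ m ih =>
      rw [Function.iterate_succ_apply']
      have h3 : f (k0 + m + 1) < G (f (k0 + m)) := h1 (k0 + m) (by omega)
      have h4 : G (f (k0 + m)) ≤ G (G^[m] (f k0)) := hGm ih
      have h5 : k0 + (m + 1) = k0 + m + 1 := by omega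
      rw [h5]
      omega
  rw [eventually_atTop]
  refine ⟨f k0, ?_⟩
  intro n hn
  have hkf : k0 ≤ f k0 := hf.le_apply
  obtain ⟨m, rfl⟩ : ∃ m, n = k0 + m := ⟨n - k0, by omega⟩
  have h6 : G^[m] (f k0) ≤ G^[k0 + m] (f k0) := by
    rw [Function.iterate_add_apply]
    have h7 : ∀ i x, x ≤ G^[i] x := by
      intro i
      induction i with
      | zero => intro x; simp
      | succ i ih =>
        intro x
        rw [Function.iterate_succ_apply']
        exact (ih x).trans (hGi _)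
    exact h7 _ _
  have h8 : G^[k0 + m] (f k0) ≤ G^[k0 + m] (k0 + m) := (hGm.iterate _) hn
  exact (h2 m).trans (h6.trans h8)

/-- a bound for a small family -/
noncomputable def bd {κ : Type} (f : κ → ℕ → ℕ) : ℕ → ℕ := by
  classical
  exact if h : ∃ g : ℕ → ℕ, ∀ i, ∀ᶠ n in atTop, f i n ≤ g n then Classical.choose h else fun _ => 0

lemma bd_spec {κ : Type} (f : κ → ℕ → ℕ) (h : #κ < bNum) :
    ∀ i, ∀ᶠ n in atTop, f i n ≤ bd f n := by
  have h1 : ∃ g : ℕ → ℕ, ∀ i, ∀ᶠ n in atTop, f i n ≤ g n := exists_bound f h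
  unfold bd
  rw [dif_pos h1]
  exact Classical.choose_spec h1

lemma exists_chain : ∃ f : bNum.ord.ToType → ℕ → ℕ,
    (∀ i, ∃ g, f i = nice g) ∧ ∀ H : ℕ → ℕ, ∃ i₀, ∀ i, i₀ ≤ i →
      ¬ ∀ᶠ n in atTop, f i n ≤ H n := by
  classical
  obtain ⟨F, hF, hunb⟩ := exists_unbounded
  have hJ : #(bNum.ord.ToType) = bNum := by simp
  obtain ⟨e⟩ : Nonempty (bNum.ord.ToType ≃ F) := by
    rw [← Cardinal.eq, hJ, hF]
  let J := bNum.ord.ToType
  let fs : J → ℕ → ℕ := (wellFounded_lt (α := J)).fix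
    (fun i ih => nice (fun n => max (bd (fun j : {j // j < i} => ih j.1 j.2) n) ((e i).1 n)))
  have hfs : ∀ i, fs i =
      nice (fun n => max (bd (fun j : {j // j < i} => fs j.1) n) ((e i).1 n)) := by
    intro i
    exact (wellFounded_lt (α := J)).fix_eq _ i
  have hsmall : ∀ i : J, #{j // j < i} < bNum := by
    intro i
    have h3 := Cardinal.mk_Iio_lt (α := J) i (by simp [J])
    have h4 : #(Iio i) = #{j // j < i} := rfl
    rw [← h4]
    rw [hJ] at h3
    exact h3
  have hmono : ∀ j i : J, j < i → ∀ᶠ n in atTop, fs j n ≤ fs i n := by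
    intro j i hji
    have h1 := bd_spec (fun j : {j // j < i} => fs j.1) (hsmall i) ⟨j, hji⟩
    filter_upwards [h1] with n hn
    rw [hfs i]
    refine le_trans ?_ (le_nice _ n)
    exact hn.trans (le_max_left _ _)
  refine ⟨fs, fun i => ⟨_, hfs i⟩, ?_⟩
  intro H
  obtain ⟨u, hu, huH⟩ := hunb H
  refine ⟨e.symm ⟨u, hu⟩, ?_⟩
  have h0 : ∀ n, u n ≤ fs (e.symm ⟨u, hu⟩) n := by
    intro n
    rw [hfs]
    refine le_trans ?_ (le_nice _ n)
    refine le_trans ?_ (le_max_right _ _)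
    simp
  intro i hi hcon
  apply huH
  rcases hi.eq_or_lt with rfl | hlt
  · filter_upwards [hcon] with n hn
    exact (h0 n).trans hn
  · filter_upwards [hcon, hmono _ _ hlt] with n hn1 hn2
    exact (h0 n).trans (hn2.trans hn1)

/-- If `s = c`, there are `b` many MAD families which are jointly tight. -/
theorem exists_joint (hs : sNum = 𝔠) :
    ∃ A : bNum.ord.ToType → Set (Set ℕ), (∀ i, IsMAD (A i)) ∧
      ∀ B : ℕ → Set ℕ, (∀ n, (B n).Infinite) → ∃ i₀, ∀ i, i₀ ≤ i →
        (∀ n, Pos (A i) (B n)) ∧ ∃ a ∈ A i, ∀ n, (a ∩ B n).Infinite := by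
  obtain ⟨f, hf, hunb⟩ := exists_chain
  have h1 : ∀ i, ∃ A : Set (Set ℕ), IsMAD A ∧ ∀ B : ℕ → Set ℕ, JLarge (lvl (f i)) B →
        (∀ n, Pos A (B n)) ∧ ∃ a ∈ A, ∀ n, (a ∩ B n).Infinite := by
    intro i
    obtain ⟨g, hg⟩ := hf i
    rw [hg]
    obtain ⟨A, hA, _, hA2⟩ := exists_tight_large hs (lvl (nice g))
      (lvl_finite (nice_strictMono g)) (nice_large g)
    exact ⟨A, hA, hA2⟩
  choose A hA hA2 using h1
  refine ⟨A, hA, ?_⟩
  intro B hB
  obtain ⟨H, hH⟩ := exists_H B hB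
  obtain ⟨i₀, hi₀⟩ := hunb H
  refine ⟨i₀, fun i hi => ?_⟩
  apply hA2 i
  apply hH (f i) _ (hi₀ i hi)
  obtain ⟨g, hg⟩ := hf i
  rw [hg]
  exact nice_strictMono g

end Pool.Agent.WTight
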