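import Pool.Agent.WTight.Basic

/-!
The one step lemma for large systems: if each of fewer than s sets meets the finite sets `P k`
in boundedly many points, a new set meeting all the given large sets can be found.
-/

open Cardinal Set Filter

namespace Pool.Agent.WTight

lemma exists_inj_sel {α β : Type} [Fintype α] [DecidableEq β] (t : α → Finset β)
    (h : ∀ a, Fintype.card α ≤ (t a).card) :
    ∃ f : α → β, Function.Injective f ∧ ∀ a, f a ∈ t a := by
  classical
  rw [← Finset.all_card_le_biUnion_card_iff_exists_injective]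
  intro s
  rcases s.eq_empty_or_nonempty with rfl | ⟨a, ha⟩
  · simp
  · calc s.card ≤ Fintype.card α := Finset.card_le_univ s
      _ ≤ (t a).card := h a
      _ ≤ (s.biUnion t).card := Finset.card_le_card (Finset.subset_biUnion_of_mem t ha)

/-- distinct elements of a finite set of 0-1-sequences are separated at a finite level. -/
lemma exists_level (Z : Finset (ℕ → Bool)) :
    ∃ L : ℕ, ∀ z ∈ Z, ∀ z' ∈ Z, (∀ i < L, z i = z' i) → z = z' := by
  classical
  have h : ∀ p : (ℕ → Bool) × (ℕ → Bool), ∃ i, p.1 ≠ p.2 → p.1 i ≠ p.2 i := by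
    intro p
    by_cases hp : p.1 = p.2
    · exact ⟨0, fun h => absurd hp h⟩
    · obtain ⟨i, hi⟩ := Function.ne_iff.mp hp
      exact ⟨i, fun _ => hi⟩
  choose d hd using h
  refine ⟨(Z ×ˢ Z).sup d + 1, ?_⟩
  intro z hz z' hz' hall
  by_contra hne
  have h1 : d (z, z') ≤ (Z ×ˢ Z).sup d :=
    Finset.le_sup (f := d) (Finset.mem_product.mpr ⟨hz, hz'⟩)
  exact hd (z, z') hne (hall _ (by omega))

theorem step_large (hs : sNum = 𝔠) (F : Set (Set ℕ)) (hF : #F < 𝔠)
    (P : ℕ → Finset ℕ) (hP : ∀ k l x, x ∈ P k → x ∈ P l → k = l)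
    (hm' : ∀ a ∈ F, ∃ m : ℕ, ∀ᶠ k in atTop, ((↑(P k) : Set ℕ) ∩ a).ncard ≤ m)
    (B : ℕ → Set ℕ)
    (hB : ∀ N K : ℕ, ∃ k, K < k ∧ ∀ n ≤ N, N ≤ ((↑(P k) : Set ℕ) ∩ B n).ncard) :
    ∃ c : Set ℕ, (∀ n, (c ∩ B n).Infinite) ∧
      (∀ x ∈ c, ∃ k, x ∈ P k ∧ ∀ y ∈ c, y ∈ P k → x = y) ∧ ∀ a ∈ F, (a ∩ c).Finite := by
  classical
  -- choose the places
  obtain ⟨q, hq, hqm⟩ := exists_greedy (α := ℕ) (fun k => k)
    (fun j => {k | ∀ n ≤ j, (j + 1) * 2 ^ j ≤ ((↑(P k) : Set ℕ) ∩ B n).ncard}) (by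
      intro j K
      obtain ⟨k, hk, hkn⟩ := hB ((j + 1) * 2 ^ j) K
      refine ⟨k, ?_, hk⟩
      intro n hn
      apply hkn
      calc n ≤ j := hn
        _ ≤ j + 1 := Nat.le_succ j
        _ ≤ (j + 1) * 2 ^ j := Nat.le_mul_of_pos_right _ (by positivity))
  have hqinj : Function.Injective q := hqm.injective
  -- choose the points
  have hpts : ∀ j, ∃ p : Fin (j + 1) × (Fin j → Bool) → ℕ, Function.Injective p ∧
      ∀ u, p u ∈ (P (q j)).filter (fun x => x ∈ B u.1) := by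
    intro j
    apply exists_inj_sel (fun u : Fin (j + 1) × (Fin j → Bool) =>
      (P (q j)).filter (fun x => x ∈ B u.1))
    intro u
    have h1 : Fintype.card (Fin (j + 1) × (Fin j → Bool)) = (j + 1) * 2 ^ j := by
      simp [Fintype.card_prod]
    rw [h1]
    have h2 := hq j u.1 (Nat.lt_succ_iff.mp u.1.2)
    have h3 : ((↑(P (q j)) : Set ℕ) ∩ B u.1) =
        ↑((P (q j)).filter (fun x => x ∈ B u.1)) := by
      ext x; simp
    rw [h3, ncard_coe_finset] at h2
    exact h2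
  choose p hpinj hpmem using hpts
  have hpP : ∀ j u, p j u ∈ P (q j) := fun j u => (Finset.mem_filter.mp (hpmem j u)).1
  have hpB : ∀ j u, p j u ∈ B u.1 := fun j u => (Finset.mem_filter.mp (hpmem j u)).2
  -- the codes met by `a`
  let S : F × (Σ l : ℕ, (Fin l → Bool)) → Set ℕ := fun w =>
    {j | ∃ u : Fin (j + 1) × (Fin j → Bool), p j u ∈ w.1.1 ∧
      ∀ i : Fin w.2.1, ∃ h : i.1 < j, u.2 ⟨i.1, h⟩ = w.2.2 i}
  have hcard : #(F × (Σ l : ℕ, (Fin l → Bool))) < sNum := by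
    rw [hs, mk_prod, lift_id, lift_id]
    apply mul_lt_of_lt aleph0_le_continuum hF
    exact (mk_le_aleph0 (α := Σ l : ℕ, (Fin l → Bool))).trans_lt aleph0_lt_continuum
  obtain ⟨J, hJinf, hJ⟩ := exists_unsplit S hcard
  let bad : Set ℕ → (ℕ → Bool) → Prop := fun a z =>
    {j | j ∈ J ∧ ∃ n : Fin (j + 1), p j (n, fun i => z i) ∈ a}.Infinite
  -- few bad sequences
  have hbadfin : ∀ a ∈ F, {z | bad a z}.Finite := by
    intro a ha
    obtain ⟨m, hm⟩ := hm' a ha
    by_contra hinf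
    have hinf' : {z | bad a z}.Infinite := hinf
    obtain ⟨Z, hZsub, hZcard⟩ := hinf'.exists_subset_card_eq (m + 1)
    obtain ⟨L, hL⟩ := exists_level Z
    have h1 : ∀ z ∈ Z, (J \ S (⟨a, ha⟩, ⟨L, fun i => z i⟩)).Finite := by
      intro z hz
      rcases hJ (⟨a, ha⟩, ⟨L, fun i => z i⟩) with h2 | h2
      · exfalso
        have hb : {j | j ∈ J ∧ ∃ n : Fin (j + 1), p j (n, fun i => z i) ∈ a}.Infinite :=
          hZsub hz
        apply hb
        apply (h2.union (finite_Iio L)).subset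
        rintro j ⟨hjJ, n, hn⟩
        by_cases hjL : j < L
        · exact Or.inr hjL
        · left
          refine ⟨hjJ, (n, fun i => z i), hn, ?_⟩
          intro i
          exact ⟨lt_of_lt_of_le i.2 (not_lt.mp hjL), rfl⟩
      · exact h2
    have h2 : (J \ ((⋃ z ∈ Z, (J \ S (⟨a, ha⟩, ⟨L, fun i => z i⟩))) ∪
        {j | ¬ ((↑(P (q j)) : Set ℕ) ∩ a).ncard ≤ m})).Nonempty := by
      have hfin : ((⋃ z ∈ Z, (J \ S (⟨a, ha⟩, ⟨L, fun i => z i⟩))) ∪
        {j | ¬ ((↑(P (q j)) : Set ℕ) ∩ a).ncard ≤ m}).Finite := by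
        apply Finite.union
        · apply Finite.biUnion (Finset.finite_toSet Z)
          intro z hz
          exact h1 z hz
        · have h3 := hqm.tendsto_atTop.eventually hm
          rw [eventually_atTop] at h3
          obtain ⟨N0, hN0⟩ := h3
          apply (finite_Iio N0).subset
          intro j hj
          by_contra hjN
          exact hj (hN0 j (not_lt.mp hjN))
      exact (hJinf.sdiff hfin).nonempty
    obtain ⟨j, hjJ, hj⟩ := h2
    rw [mem_union, not_or] at hj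
    obtain ⟨hj1, hj2⟩ := hj
    have hj3 : ((↑(P (q j)) : Set ℕ) ∩ a).ncard ≤ m := by
      by_contra h
      exact hj2 h
    have hj4 : ∀ z ∈ Z, j ∈ S (⟨a, ha⟩, ⟨L, fun i => z i⟩) := by
      intro z hz
      by_contra h
      apply hj1
      rw [mem_iUnion₂]
      exact ⟨z, hz, hjJ, h⟩
    have hj5 : ∀ z : Z, ∃ u : Fin (j + 1) × (Fin j → Bool), p j u ∈ a ∧
      ∀ i : Fin L, ∃ h : i.1 < j, u.2 ⟨i.1, h⟩ = z.1 i := fun z => hj4 z.1 z.2
    choose g hg1 hg2 using hj5
    have hginj : Function.Injective (fun z : Z => p j (g z)) := by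
      intro z z' hzz
      have h3 : g z = g z' := hpinj j hzz
      apply Subtype.ext
      apply hL z.1 z.2 z'.1 z'.2
      intro i hi
      obtain ⟨hi1, hi2⟩ := hg2 z ⟨i, hi⟩
      obtain ⟨hi3, hi4⟩ := hg2 z' ⟨i, hi⟩
      simp only [] at hi2 hi4
      rw [← hi2, ← hi4, h3]
    have h6 : (Finset.univ.image (fun z : Z => p j (g z))).card = m + 1 := by
      rw [Finset.card_image_of_injective _ hginj, Finset.card_univ, Fintype.card_coe, hZcard]
    have h7 : (↑(Finset.univ.image (fun z : Z => p j (g z))) : Set ℕ) ⊆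
        (↑(P (q j)) : Set ℕ) ∩ a := by
      intro x hx
      rw [Finset.mem_coe, Finset.mem_image] at hx
      obtain ⟨z, -, rfl⟩ := hx
      exact ⟨Finset.mem_coe.mpr (hpP j _), hg1 z⟩
    have h8 := ncard_le_ncard h7 (Finite.inter_of_left (Finset.finite_toSet _) _)
    rw [ncard_coe_finset, h6] at h8
    omega
  -- a good sequence
  obtain ⟨z, hz⟩ : ∃ z : ℕ → Bool, ∀ a ∈ F, ¬ bad a z := by
    by_contra hcon
    push Not at hcon
    have h1 : (Set.univ : Set (ℕ → Bool)) ⊆ ⋃ a : F, {z | bad a.1 z} := by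
      intro z _
      obtain ⟨a, ha, hb⟩ := hcon z
      exact mem_iUnion.mpr ⟨⟨a, ha⟩, hb⟩
    have h2 : 𝔠 ≤ #(⋃ a : F, {z | bad a.1 z} : Set (ℕ → Bool)) := by
      have h3 := mk_le_mk_of_subset h1
      rw [mk_univ] at h3
      have h4 : #(ℕ → Bool) = 𝔠 := by simp
      rwa [h4] at h3
    have h5 : #(⋃ a : F, {z | bad a.1 z} : Set (ℕ → Bool)) ≤ #F * ℵ₀ := by
      apply (mk_iUnion_le (fun a : F => {z | bad a.1 z})).trans
      gcongr
      apply ciSup_le'
      intro a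
      exact ((hbadfin a.1 a.2).lt_aleph0).le
    have h6 : #F * ℵ₀ < 𝔠 := mul_lt_of_lt aleph0_le_continuum hF aleph0_lt_continuum
    exact absurd (h2.trans h5) (not_le.mpr h6)
  -- the new set
  obtain ⟨r, hr, hrm⟩ := exists_greedy (α := ℕ) (fun j => j)
    (fun i => {j | j ∈ J ∧ (Nat.unpair i).1 ≤ j}) (by
      intro i M
      obtain ⟨j, hj, hjM⟩ := hJinf.exists_gt (max M (Nat.unpair i).1)
      exact ⟨j, ⟨hj, (le_max_right _ _).trans hjM.le⟩, lt_of_le_of_lt (le_max_left _ _) hjM⟩)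
  have hrinj : Function.Injective r := hrm.injective
  let f : ℕ → ℕ := fun i =>
    p (r i) (⟨(Nat.unpair i).1, Nat.lt_succ_of_le (hr i).2⟩, fun l => z l)
  have hfP : ∀ i, f i ∈ P (q (r i)) := fun i => hpP _ _
  have hfinj : Function.Injective f := by
    intro i i' hii
    have h1 := hfP i
    rw [hii] at h1
    exact hrinj (hqinj (hP _ _ _ h1 (hfP i')))
  refine ⟨Set.range f, ?_, ?_, ?_⟩
  · intro n
    have h1 : (f '' {i | (Nat.unpair i).1 = n}).Infinite := by
      apply Set.Infinite.image hfinj.injOn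
      apply Set.infinite_of_injective_forall_mem (f := fun k : ℕ => Nat.pair n k)
      · intro k k' hkk
        simpa using hkk
      · intro k
        simp
    apply h1.mono
    rintro x ⟨i, hi, rfl⟩
    refine ⟨⟨i, rfl⟩, ?_⟩
    have h2 := hpB (r i) (⟨(Nat.unpair i).1, Nat.lt_succ_of_le (hr i).2⟩, fun l => z l)
    have h3 : (Nat.unpair i).1 = n := hi
    rw [← h3]
    exact h2
  · rintro x ⟨i, rfl⟩
    refine ⟨q (r i), hfP i, ?_⟩
    rintro y ⟨i', rfl⟩ hy
    have h1 : i = i' := hrinj (hqinj (hP _ _ _ hy (hfP i'))) 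
    rw [h1]
  · intro a ha
    have h1 : {j | j ∈ J ∧ ∃ n : Fin (j + 1), p j (n, fun i => z i) ∈ a}.Finite := by
      by_contra h
      exact hz a ha h
    have h2 : (r ⁻¹' {j | j ∈ J ∧ ∃ n : Fin (j + 1), p j (n, fun i => z i) ∈ a}).Finite :=
      h1.preimage hrinj.injOn
    apply (h2.image f).subset
    rintro x ⟨hxa, i, rfl⟩
    exact ⟨i, ⟨(hr i).1, ⟨⟨(Nat.unpair i).1, Nat.lt_succ_of_le (hr i).2⟩, hxa⟩⟩, rfl⟩

end Pool.Agent.WTight
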