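import Pool.Agent.WTight.Basic

/-!
The one step lemma for systems on which the traces have bounded width.
-/

open Cardinal Set Filter

namespace Pool.Agent.WTight

/-- If each finite set in a family `Ed` has at least twice as many points as there are members
of the family of smaller or equal rank, some set splits all of them. -/
lemma exists_splitter (Ed : Set (Finset ℕ)) (ν : Ed → ℕ) (w : ℕ → ℕ)
    (hν : ∀ E : Ed, 2 * ∑ m ∈ Finset.range (ν E + 1), w m ≤ E.1.card)
    (hw : ∀ (m : ℕ) (Q : Finset Ed), (∀ E ∈ Q, ν E = m) → Q.card ≤ w m) :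
    ∃ S : Set ℕ, ∀ E ∈ Ed, (∃ x ∈ E, x ∈ S) ∧ ∃ x ∈ E, x ∉ S := by
  classical
  have hall : ∃ f : Ed × Bool → ℕ, Function.Injective f ∧ ∀ p, f p ∈ p.1.1 := by
    rw [← Finset.all_card_le_biUnion_card_iff_exists_injective (fun p : Ed × Bool => p.1.1)]
    intro s
    rcases s.eq_empty_or_nonempty with rfl | hne
    · simp
    · let Pr : Finset Ed := s.image Prod.fst
      have hPrne : Pr.Nonempty := hne.image _
      obtain ⟨Es, hEs, hmax⟩ := Finset.exists_max_image Pr ν hPrne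
      have h1 : s.card ≤ 2 * Pr.card := by
        have h2 : s ⊆ Pr ×ˢ (Finset.univ : Finset Bool) := by
          intro p hp
          rw [Finset.mem_product]
          exact ⟨Finset.mem_image_of_mem _ hp, Finset.mem_univ _⟩
        have h3 := Finset.card_le_card h2
        rw [Finset.card_product, Finset.card_univ, Fintype.card_bool] at h3
        omega
      have h2 : Pr.card ≤ ∑ m ∈ Finset.range (ν Es + 1), w m := by
        have h3 : Pr.card = ∑ m ∈ Finset.range (ν Es + 1), (Pr.filter (fun E => ν E = m)).card := by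
          apply Finset.card_eq_sum_card_fiberwise
          intro E hE
          rw [Finset.mem_coe] at hE ⊢
          rw [Finset.mem_range]
          have := hmax E hE
          omega
        rw [h3]
        apply Finset.sum_le_sum
        intro m _
        apply hw m
        intro E hE
        exact (Finset.mem_filter.mp hE).2
      have h4 : Es.1.card ≤ (s.biUnion (fun p : Ed × Bool => p.1.1)).card := by
        apply Finset.card_le_card
        rw [Finset.mem_image] at hEs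
        obtain ⟨p, hp, rfl⟩ := hEs
        exact Finset.subset_biUnion_of_mem (fun p : Ed × Bool => p.1.1) hp
      have h5 := hν Es
      calc s.card ≤ 2 * Pr.card := h1
        _ ≤ 2 * ∑ m ∈ Finset.range (ν Es + 1), w m := Nat.mul_le_mul_left 2 h2
        _ ≤ Es.1.card := h5
        _ ≤ _ := h4
  obtain ⟨f, hf, hfm⟩ := hall
  refine ⟨{x | ∃ E : Ed, f (E, true) = x}, ?_⟩
  intro E hE
  refine ⟨⟨f (⟨E, hE⟩, true), hfm (⟨E, hE⟩, true), ⟨⟨E, hE⟩, rfl⟩⟩,
    ⟨f (⟨E, hE⟩, false), hfm (⟨E, hE⟩, false), ?_⟩⟩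
  rintro ⟨E', hE'⟩
  have := hf hE'
  simp at this

theorem step_width (hs : sNum = 𝔠) (F : Set (Set ℕ)) (hF : #F < 𝔠)
    (C : ℕ → Set ℕ) (hC : ∀ n, (C n).Infinite) (w : ℕ → ℕ)
    (hw : ∀ a ∈ F, ∀ᶠ n in atTop, (a ∩ C n).Finite ∧ (a ∩ C n).ncard < w n) :
    ∃ x : ℕ → Set ℕ, (∀ n, x n ⊆ C n ∧ (x n).Infinite) ∧
      ∀ a ∈ F, ∀ᶠ n in atTop, a ∩ x n = ∅ := by
  classical
  -- the pieces
  let e : ℕ → ℕ → ℕ := fun n i => ((hC n).natEmbedding (C n) i).1
  have heinj : ∀ n, Function.Injective (e n) := by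
    intro n i j hij
    exact ((hC n).natEmbedding (C n)).injective (Subtype.ext hij)
  have heC : ∀ n i, e n i ∈ C n := fun n i => ((hC n).natEmbedding (C n) i).2
  let Y : ℕ → Finset ℕ → Set ℕ := fun n E =>
    Set.range (fun k => e n (Nat.pair (Encodable.encode E) k))
  have hYC : ∀ n E, Y n E ⊆ C n := by
    rintro n E _ ⟨k, rfl⟩
    exact heC _ _
  have hYinf : ∀ n E, (Y n E).Infinite := by
    intro n E
    apply infinite_range_of_injective
    intro k k' hkk
    have h1 := heinj n hkk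
    simpa using h1
  have hYdisj : ∀ n E E' x, x ∈ Y n E → x ∈ Y n E' → E = E' := by
    rintro n E E' x ⟨k, hk⟩ ⟨k', hk'⟩
    have h1 := heinj n (hk.trans hk'.symm)
    rw [Nat.pair_eq_pair] at h1
    exact Encodable.encode_injective h1.1
  let N : ℕ → ℕ := fun n => 2 * ∑ m ∈ Finset.range (n + 1), w m
  -- splitting sets
  have hsplit : ∀ a : F, ∃ S : Set ℕ, ∃ n₀ : ℕ, ∀ n, n₀ ≤ n → ∀ E : Finset ℕ, E.card = N n →
      (a.1 ∩ Y n E).Nonempty → (∃ x ∈ E, x ∈ S) ∧ ∃ x ∈ E, x ∉ S := by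
    rintro ⟨a, ha⟩
    obtain ⟨n₀, hn₀⟩ := eventually_atTop.mp (hw a ha)
    let Ed : Set (Finset ℕ) := {E | ∃ n, n₀ ≤ n ∧ E.card = N n ∧ (a ∩ Y n E).Nonempty}
    have hch : ∀ E : Ed, ∃ n, n₀ ≤ n ∧ E.1.card = N n ∧ (a ∩ Y n E.1).Nonempty := fun E => E.2
    choose ν hν1 hν2 hν3 using hch
    obtain ⟨S, hS⟩ := exists_splitter Ed ν w (fun E => by rw [hν2 E]) (by
      intro m Q hQ
      rcases Q.eq_empty_or_nonempty with rfl | ⟨E₀, hE₀⟩
      · simp
      have hm : n₀ ≤ m := by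
        have := hν1 E₀
        rw [hQ E₀ hE₀] at this
        exact this
      choose pt hpt using hν3
      have h1 : (Q.image pt).card = Q.card := by
        apply Finset.card_image_of_injOn
        intro E hE E' hE' hEE
        have h2 := (hpt E).2
        have h3 := (hpt E').2
        rw [hQ E hE] at h2
        rw [hQ E' hE'] at h3
        rw [hEE] at h2
        exact Subtype.ext (hYdisj m _ _ _ h2 h3)
      have h2 : (↑(Q.image pt) : Set ℕ) ⊆ a ∩ C m := by
        intro x hx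
        rw [Finset.mem_coe, Finset.mem_image] at hx
        obtain ⟨E, hE, rfl⟩ := hx
        refine ⟨(hpt E).1, ?_⟩
        have h3 := (hpt E).2
        rw [hQ E hE] at h3
        exact hYC _ _ h3
      have h3 := ncard_le_ncard h2 (hn₀ m hm).1
      rw [ncard_coe_finset, h1] at h3
      exact h3.trans (hn₀ m hm).2.le)
    refine ⟨S, n₀, ?_⟩
    intro n hn E hE hne
    exact hS E ⟨n, hn, hE, hne⟩
  choose S n₀ hS using hsplit
  obtain ⟨X, hX, hXS⟩ := exists_unsplit S (by rw [hs]; exact hF)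
  have hE : ∀ n, ∃ E : Finset ℕ, E.card = N n ∧ (↑E : Set ℕ) ⊆ X \ Iio n := by
    intro n
    obtain ⟨t, ht, hc⟩ := (hX.sdiff (finite_Iio n)).exists_subset_card_eq (N n)
    exact ⟨t, hc, ht⟩
  choose E hE1 hE2 using hE
  refine ⟨fun n => Y n (E n), fun n => ⟨hYC _ _, hYinf _ _⟩, ?_⟩
  intro a ha
  by_contra hcon
  have hfreq : ∃ᶠ n in atTop, (a ∩ Y n (E n)).Nonempty := by
    rw [Filter.Frequently]
    intro h
    apply hcon
    filter_upwards [h] with n hn
    exact not_nonempty_iff_eq_empty.mp hn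
  have key : ∀ K : ℕ, (∃ x ∈ X ∩ S ⟨a, ha⟩, K ≤ x) ∧ ∃ x ∈ X \ S ⟨a, ha⟩, K ≤ x := by
    intro K
    obtain ⟨n, hn, hne⟩ := (frequently_atTop.mp hfreq) (max K (n₀ ⟨a, ha⟩))
    obtain ⟨⟨x, hxE, hxS⟩, ⟨y, hyE, hyS⟩⟩ :=
      hS ⟨a, ha⟩ n ((le_max_right _ _).trans hn) (E n) (hE1 n) hne
    have hKn : K ≤ n := (le_max_left _ _).trans hn
    refine ⟨⟨x, ⟨(hE2 n hxE).1, hxS⟩, ?_⟩, ⟨y, ⟨(hE2 n hyE).1, hyS⟩, ?_⟩⟩
    · exact hKn.trans (not_lt.mp (hE2 n hxE).2)
    · exact hKn.trans (not_lt.mp (hE2 n hyE).2)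
  rcases hXS ⟨a, ha⟩ with h | h
  · obtain ⟨b, hb⟩ := h.bddAbove
    obtain ⟨x, hx, hbx⟩ := (key (b + 1)).1
    have := hb hx
    omega
  · obtain ⟨b, hb⟩ := h.bddAbove
    obtain ⟨x, hx, hbx⟩ := (key (b + 1)).2
    have := hb hx
    omega

end Pool.Agent.WTight
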