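import Pool.Agent.WTight.Joint
import Pool.Agent.WTight.Width

/-!
Finitely tight MAD families when `s = c`, and the obstruction to weak tightness when
`a = s = c`.
-/

open Cardinal Set Filter

namespace Pool.Agent.WTight

/-- If `s = c`, every infinite almost disjoint family of size less than `c` is contained in a
MAD family such that for every sequence of infinite sets `B n` and every `w`, some member meets
`B n` in at least `w n` points for infinitely many `n`. -/
theorem exists_finitely_tight (hs : sNum = 𝔠) (A₀ : Set (Set ℕ)) (hA₀ : IsAD A₀)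
    (hinf₀ : A₀.Infinite) (hc₀ : #A₀ < 𝔠) :
    ∃ A : Set (Set ℕ), A₀ ⊆ A ∧ IsMAD A ∧ ∀ B : ℕ → Set ℕ, (∀ n, (B n).Infinite) →
      ∀ w : ℕ → ℕ, ∃ a ∈ A, ∃ᶠ n in atTop, (w n : ℕ∞) ≤ (a ∩ B n).encard := by
  classical
  let T := {B : ℕ → Set ℕ // ∀ n, (B n).Infinite} × (ℕ → ℕ)
  have hT : #T ≤ 𝔠 := by
    have h1 : #T = #{B : ℕ → Set ℕ // ∀ n, (B n).Infinite} * #(ℕ → ℕ) := by
      simp [T]
    rw [h1]
    have h2 : #{B : ℕ → Set ℕ // ∀ n, (B n).Infinite} ≤ 𝔠 :=
      (mk_subtype_le _).trans mk_seq_set.le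
    have h3 : #(ℕ → ℕ) ≤ 𝔠 := by simp
    calc _ ≤ 𝔠 * 𝔠 := mul_le_mul' h2 h3
      _ = 𝔠 := continuum_mul_self
  obtain ⟨A, hAA, hAD, _, hdone⟩ := exists_family hT (fun _ => True)
    (fun t a => ∃ᶠ n in atTop, (t.2 n : ℕ∞) ≤ (a ∩ t.1.1 n).encard)
    (fun _ _ => False) A₀ hc₀ hA₀ (fun _ _ => trivial) (by
      rintro ⟨⟨B, hB⟩, w⟩ F hF hFAD _
      by_cases hex : ∃ a ∈ F, ∃ᶠ n in atTop, (w n : ℕ∞) ≤ (a ∩ B n).encard
      · exact Or.inl hex
      · right; left
        push Not at hex
        have hw : ∀ a ∈ F, ∀ᶠ n in atTop, (a ∩ B n).Finite ∧ (a ∩ B n).ncard < w n := by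
          intro a ha
          filter_upwards [hex a ha] with n hn
          have h1 : (a ∩ B n).encard < (w n : ℕ∞) := hn
          have h2 : (a ∩ B n).Finite := by
            rw [← encard_lt_top_iff]
            exact h1.trans (ENat.natCast_lt_top _)
          refine ⟨h2, ?_⟩
          rw [← h2.cast_ncard_eq] at h1
          exact_mod_cast h1
        obtain ⟨x, hx, hxF⟩ := step_width hs F hF B hB w hw
        let W : ℕ → ℕ := fun n => ∑ m ∈ Finset.range n, (w m + 1)
        have hWsucc : ∀ n, W (n + 1) = W n + (w n + 1) := fun n => Finset.sum_range_succ _ _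
        have hWm : StrictMono W := strictMono_nat_of_lt_succ (fun n => by rw [hWsucc]; omega)
        obtain ⟨f, hf, hfm⟩ := exists_greedy (fun k : ℕ => k) (fun i => x (lvl W i)) (by
          intro i m
          exact (hx (lvl W i)).2.exists_gt m)
        have hfinj : Function.Injective f := hfm.injective
        refine ⟨Set.range f, infinite_range_of_injective hfinj, trivial, ?_, ?_⟩
        · apply Frequently.of_forall
          intro n
          have h1 : (↑((Finset.Ico (W n) (W (n + 1))).image f) : Set ℕ) ⊆ Set.range f ∩ B n := by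
            intro y hy
            rw [Finset.mem_coe, Finset.mem_image] at hy
            obtain ⟨i, hi, rfl⟩ := hy
            rw [Finset.mem_Ico] at hi
            refine ⟨⟨i, rfl⟩, ?_⟩
            have h2 := hf i
            rw [lvl_eq hWm hi.1 hi.2] at h2
            exact (hx n).1 h2
          have h2 := encard_le_encard h1
          rw [encard_coe_eq_coe_finsetCard, Finset.card_image_of_injective _ hfinj,
            Nat.card_Ico, hWsucc] at h2
          refine le_trans ?_ h2
          have h3 : w n ≤ W n + (w n + 1) - W n := by omega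
          exact_mod_cast h3
        · intro a ha
          obtain ⟨n₀, hn₀⟩ := eventually_atTop.mp (hxF a ha)
          apply ((finite_Iio (W n₀)).image f).subset
          rintro y ⟨hya, i, rfl⟩
          refine ⟨i, ?_, rfl⟩
          by_contra hge
          have h1 : W n₀ ≤ i := not_lt.mp hge
          have h2 : n₀ ≤ lvl W i :=
            Nat.le_findGreatest ((hWm.le_apply).trans h1) h1
          have h3 := hn₀ _ h2
          have h4 : f i ∈ a ∩ x (lvl W i) := ⟨hya, hf i⟩
          rw [h3] at h4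
          exact h4)
  have hmain : ∀ B : ℕ → Set ℕ, (∀ n, (B n).Infinite) → ∀ w : ℕ → ℕ,
      ∃ a ∈ A, ∃ᶠ n in atTop, (w n : ℕ∞) ≤ (a ∩ B n).encard := by
    intro B hB w
    rcases hdone (⟨B, hB⟩, w) with h | ⟨_, _, _, h⟩
    · exact h
    · exact h.elim
  have hmax : ∀ x : Set ℕ, x.Infinite → ∃ a ∈ A, (a ∩ x).Infinite := by
    intro x hx
    obtain ⟨a, ha, hfr⟩ := hmain (fun _ => x) (fun _ => hx) id
    refine ⟨a, ha, ?_⟩
    rw [← encard_eq_top_iff, ENat.eq_top_iff_forall_ge]
    intro m
    obtain ⟨n, hn, hle⟩ := (frequently_atTop.mp hfr) m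
    refine le_trans ?_ hle
    exact_mod_cast hn
  exact ⟨A, hAA, isMAD_of (hinf₀.mono hAA) hAD hmax, hmain⟩

/-- An almost disjoint family of size less than `b` is not maximal below any positive set. -/
lemma exists_orth {F : Set (Set ℕ)} (hF : IsAD F) (hc : #F < bNum) {x : Set ℕ} (hx : Pos F x) :
    ∃ y ⊆ x, y.Infinite ∧ ∀ a ∈ F, (a ∩ y).Finite := by
  classical
  by_cases hfin : {a | a ∈ F ∧ (a ∩ x).Infinite}.Finite
  · refine ⟨x \ ⋃ a ∈ hfin.toFinset, a, sdiff_subset, hx hfin.toFinset (by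
      intro a ha
      have h2 : a ∈ hfin.toFinset := ha
      rw [Finite.mem_toFinset] at h2
      exact h2.1), ?_⟩
    intro a ha
    by_cases hax : (a ∩ x).Infinite
    · convert finite_empty
      rw [eq_empty_iff_forall_notMem]
      rintro y ⟨hya, _, hyU⟩
      apply hyU
      rw [mem_iUnion₂]
      exact ⟨a, by rw [Finite.mem_toFinset]; exact ⟨ha, hax⟩, hya⟩
    · apply (not_infinite.mp hax).subset
      rintro y ⟨hya, hyx, _⟩
      exact ⟨hya, hyx⟩
  · have hinf : {a | a ∈ F ∧ (a ∩ x).Infinite}.Infinite := hfin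
    let u : ℕ → Set ℕ := fun n => (hinf.natEmbedding _ n).1
    have hu : ∀ n, u n ∈ F ∧ (u n ∩ x).Infinite := fun n => (hinf.natEmbedding _ n).2
    have huinj : Function.Injective u := by
      intro i j hij
      exact (hinf.natEmbedding _).injective (Subtype.ext hij)
    let X : ℕ → Set ℕ := fun n => (u n ∩ x) \ ⋃ i ∈ Finset.range n, u i
    have hXinf : ∀ n, (X n).Infinite := by
      intro n
      have h1 : ((u n ∩ x) ∩ ⋃ i ∈ Finset.range n, u i).Finite := by
        have h2 : (⋃ i ∈ Finset.range n, (u n ∩ u i)).Finite := by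
          apply Finite.biUnion (Finset.finite_toSet _)
          intro i hi
          rw [Finset.mem_coe, Finset.mem_range] at hi
          exact hF.2 _ (hu n).1 _ (hu i).1 (fun h => by
            have := huinj h
            omega)
        apply h2.subset
        rintro y ⟨⟨hy1, _⟩, hy3⟩
        rw [mem_iUnion₂] at hy3 ⊢
        obtain ⟨i, hi, hyi⟩ := hy3
        exact ⟨i, hi, hy1, hyi⟩
      have h3 : X n = (u n ∩ x) \ ((u n ∩ x) ∩ ⋃ i ∈ Finset.range n, u i) := by
        rw [sdiff_self_inter]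
      rw [h3]
      exact (hu n).2.sdiff h1
    let φ : F → ℕ → ℕ := fun a n => if h : (a.1 ∩ X n).Finite then h.toFinset.sup id + 1 else 0
    obtain ⟨g, hg⟩ := exists_bound φ hc
    obtain ⟨f, hf, hfm⟩ := exists_greedy (fun k : ℕ => k) (fun n => X n \ Iio (g n)) (by
      intro n m
      exact ((hXinf n).sdiff (finite_Iio _)).exists_gt m)
    have hfinj : Function.Injective f := hfm.injective
    refine ⟨Set.range f, ?_, infinite_range_of_injective hfinj, ?_⟩
    · rintro _ ⟨n, rfl⟩
      exact (hf n).1.1.2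
    · intro a ha
      by_cases hau : ∃ m, u m = a
      · obtain ⟨m, rfl⟩ := hau
        apply ((finite_Iic m).image f).subset
        rintro _ ⟨hya, n, rfl⟩
        refine ⟨n, ?_, rfl⟩
        by_contra hlt
        have hlt' : m < n := not_le.mp hlt
        apply (hf n).1.2
        rw [mem_iUnion₂]
        exact ⟨m, Finset.mem_range.mpr hlt', hya⟩
      · obtain ⟨n₀, hn₀⟩ := eventually_atTop.mp (hg ⟨a, ha⟩)
        apply ((finite_Iio n₀).image f).subset
        rintro _ ⟨hya, n, rfl⟩
        refine ⟨n, ?_, rfl⟩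
        by_contra hge
        have h1 := hn₀ n (not_lt.mp hge)
        have h2 : (a ∩ X n).Finite := by
          apply (hF.2 a ha (u n) (hu n).1 (fun h => hau ⟨n, h.symm⟩)).subset
          rintro y ⟨hy1, hy2⟩
          exact ⟨hy1, hy2.1.1⟩
        have h3 : φ ⟨a, ha⟩ n = h2.toFinset.sup id + 1 := by
          simp only [φ]
          rw [dif_pos h2]
        rw [h3] at h1
        have h4 : f n ≤ h2.toFinset.sup id := by
          apply Finset.le_sup (f := id)
          rw [Finite.mem_toFinset]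
          exact ⟨hya, (hf n).1⟩
        have h5 : g n ≤ f n := not_lt.mp (hf n).2
        omega

/-- `F` is wide on the system `B`.
(1) Whenever `C k` is an infinite subset of `B (e k)` for all `k`, where infinitely many `n` are
equal to `e k` for infinitely many `k`, the numbers of points in which the members of `F` meet
the `C k` are not eventually bounded by a single function of `k`.
(2) Whenever some subsequence of `B` is jointly large with respect to disjoint finite sets
`P k`, some member of `F` meets the `P k` in unboundedly many points. -/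
def Wide (F : Set (Set ℕ)) (B : ℕ → Set ℕ) : Prop :=
  (∀ (e : ℕ → ℕ) (C : ℕ → Set ℕ) (w : ℕ → ℕ), {n | {k | e k = n}.Infinite}.Infinite →
    (∀ k, C k ⊆ B (e k) ∧ (C k).Infinite) →
    ∃ a ∈ F, ∃ᶠ k in atTop, (w k : ℕ∞) ≤ (a ∩ C k).encard) ∧
  ∀ (d : ℕ → ℕ) (P : ℕ → Finset ℕ), StrictMono d → (∀ k l x, x ∈ P k → x ∈ P l → k = l) →
    (∀ N K : ℕ, ∃ k, K < k ∧ ∀ n ≤ N, N ≤ ((↑(P k) : Set ℕ) ∩ B (d n)).ncard) →
    ∃ a ∈ F, ∀ m : ℕ, ∃ᶠ k in atTop, m < ((↑(P k) : Set ℕ) ∩ a).ncard

lemma step_obstruction (hs : sNum = 𝔠) (F : Set (Set ℕ)) (hF : #F < 𝔠) (B : ℕ → Set ℕ)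
    (hW : ¬ Wide F B) :
    ∃ c : Set ℕ, c.Infinite ∧ (∃ᶠ n in atTop, (c ∩ B n).Infinite) ∧
      ∀ a ∈ F, (a ∩ c).Finite := by
  classical
  unfold Wide at hW
  rw [not_and_or] at hW
  rcases hW with hW | hW
  · push Not at hW
    obtain ⟨e, C, w, he, hC, hw⟩ := hW
    obtain ⟨x, hx, hxF⟩ := step_width hs F hF C (fun n => (hC n).2) w (fun a ha => by
      filter_upwards [hw a ha] with n hn
      have h1 : (a ∩ C n).encard < (w n : ℕ∞) := hn
      have h2 : (a ∩ C n).Finite := by
        rw [← encard_lt_top_iff]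
        exact h1.trans (ENat.natCast_lt_top _)
      refine ⟨h2, ?_⟩
      rw [← h2.cast_ncard_eq] at h1
      exact_mod_cast h1)
    obtain ⟨f, hf, hfm⟩ := exists_greedy (fun k : ℕ => k) x
      (fun n m => (hx n).2.exists_gt m)
    have hfinj : Function.Injective f := hfm.injective
    refine ⟨Set.range f, infinite_range_of_injective hfinj, ?_, ?_⟩
    · rw [frequently_atTop]
      intro K
      obtain ⟨n, hn, hKn⟩ := he.exists_gt K
      refine ⟨n, hKn.le, ?_⟩
      have hn' : {k | e k = n}.Infinite := hn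
      have h1 : (f '' {k | e k = n}).Infinite := hn'.image hfinj.injOn
      apply h1.mono
      rintro _ ⟨k, hk, rfl⟩
      refine ⟨⟨k, rfl⟩, ?_⟩
      have hk' : e k = n := hk
      rw [← hk']
      exact (hC k).1 ((hx k).1 (hf k))
    · intro a ha
      obtain ⟨n₀, hn₀⟩ := eventually_atTop.mp (hxF a ha)
      apply ((finite_Iio n₀).image f).subset
      rintro _ ⟨hya, n, rfl⟩
      refine ⟨n, ?_, rfl⟩
      by_contra hge
      have h3 := hn₀ n (not_lt.mp hge)
      have h4 : f n ∈ a ∩ x n := ⟨hya, hf n⟩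
      rw [h3] at h4
      exact h4
  · push Not at hW
    obtain ⟨d, P, hd, hP, hPB, hPF⟩ := hW
    obtain ⟨c, hc1, _, hc3⟩ := step_large hs F hF P hP (fun a ha => by
      obtain ⟨m, h1⟩ := hPF a ha
      refine ⟨m, ?_⟩
      filter_upwards [h1] with k hk
      exact hk) (fun n => B (d n)) hPB
    refine ⟨c, (hc1 0).mono inter_subset_left, ?_, hc3⟩
    rw [frequently_atTop]
    intro K
    exact ⟨d K, hd.le_apply, hc1 K⟩

/-- If `s = c`, every infinite almost disjoint family of size less than `c` is contained in a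
MAD family such that weak tightness can fail only at countable families on which some subfamily
of size less than `c` (and at least `b`) is wide. -/
theorem exists_obstruction (hs : sNum = 𝔠) (A₀ : Set (Set ℕ)) (hA₀ : IsAD A₀)
    (hinf₀ : A₀.Infinite) (hc₀ : #A₀ < 𝔠) :
    ∃ A : Set (Set ℕ), A₀ ⊆ A ∧ IsMAD A ∧ ∀ B : ℕ → Set ℕ, (∀ n, Pos A (B n)) →
      (∃ a ∈ A, ∃ᶠ n in atTop, (a ∩ B n).Infinite) ∨
      ∃ F ⊆ A, bNum ≤ #F ∧ #F < 𝔠 ∧ Wide F B := by
  classical
  let T := (ℕ → Set ℕ) ⊕ {x : Set ℕ // x.Infinite}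
  have hT : #T ≤ 𝔠 := by
    have h1 : #T = #(ℕ → Set ℕ) + #{x : Set ℕ // x.Infinite} := by
      simp [T]
    rw [h1]
    have h2 : #(ℕ → Set ℕ) ≤ 𝔠 := mk_seq_set.le
    have h3 : #{x : Set ℕ // x.Infinite} ≤ 𝔠 := (mk_subtype_le _).trans (by simp)
    calc _ ≤ 𝔠 + 𝔠 := add_le_add h2 h3
      _ = 𝔠 := continuum_add_self
  let Done : T → Set ℕ → Prop :=
    Sum.elim (fun B a => ∃ᶠ n in atTop, (a ∩ B n).Infinite) (fun x a => (a ∩ x.1).Infinite)
  let Stuck : T → Set (Set ℕ) → Prop :=
    Sum.elim (fun B F => Wide F B) (fun _ _ => False)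
  obtain ⟨A, hAA, hAD, _, hdone⟩ := exists_family hT (fun _ => True) Done Stuck
    A₀ hc₀ hA₀ (fun _ _ => trivial) (by
      intro t F hF hFAD _
      rcases t with B | ⟨x, hx⟩
      · by_cases hW : Wide F B
        · exact Or.inr (Or.inr hW)
        · right; left
          obtain ⟨c, h1, h3, h4⟩ := step_obstruction hs F hF B hW
          exact ⟨c, h1, trivial, h3, h4⟩
      · by_cases hex : ∃ a ∈ F, (a ∩ x).Infinite
        · exact Or.inl hex
        · right; left
          push Not at hex
          refine ⟨x, hx, trivial, ?_, fun a ha => hex a ha⟩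
          show (x ∩ x).Infinite
          rwa [inter_self])
  have hmax : ∀ x : Set ℕ, x.Infinite → ∃ a ∈ A, (a ∩ x).Infinite := by
    intro x hx
    rcases hdone (Sum.inr ⟨x, hx⟩) with h | ⟨_, _, _, h⟩
    · exact h
    · exact h.elim
  refine ⟨A, hAA, isMAD_of (hinf₀.mono hAA) hAD hmax, ?_⟩
  intro B hB
  rcases hdone (Sum.inl B) with h | ⟨F, hFA, hFc, hW⟩
  · exact Or.inl h
  · right
    have hW' : Wide F B := hW
    refine ⟨F, hFA, ?_, hFc, hW'⟩
    by_contra hlt
    rw [not_le] at hlt
    have hFAD : IsAD F :=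
      ⟨fun a ha => hAD.1 a (hFA ha), fun a ha b hb hab => hAD.2 a (hFA ha) b (hFA hb) hab⟩
    have hor : ∀ n, ∃ y ⊆ B n, y.Infinite ∧ ∀ a ∈ F, (a ∩ y).Finite := by
      intro n
      apply exists_orth hFAD hlt
      intro G hG
      exact hB n G (hG.trans hFA)
    choose C hC1 hC2 hC3 using hor
    obtain ⟨g, hg⟩ := exists_bound
      (fun (a : F) k => (a.1 ∩ C (Nat.unpair k).1).ncard) hlt
    obtain ⟨a, haF, hfr⟩ := hW'.1 (fun k => (Nat.unpair k).1) (fun k => C (Nat.unpair k).1)
      (fun k => g k + 1) (by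
        have h1 : {n | {k | (Nat.unpair k).1 = n}.Infinite} = Set.univ := by
          rw [eq_univ_iff_forall]
          intro n
          show {k | (Nat.unpair k).1 = n}.Infinite
          apply Set.infinite_of_injective_forall_mem (f := fun k : ℕ => Nat.pair n k)
          · intro k k' hkk
            simpa using hkk
          · intro k
            simp
        rw [h1]
        exact infinite_univ) (fun k => ⟨hC1 _, hC2 _⟩)
    obtain ⟨k, hk1, hk2⟩ := (hfr.and_eventually (hg ⟨a, haF⟩)).exists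
    have hk3 : (a ∩ C (Nat.unpair k).1).ncard ≤ g k := hk2
    rw [← (hC3 _ a haF).cast_ncard_eq] at hk1
    have hk4 : g k + 1 ≤ (a ∩ C (Nat.unpair k).1).ncard := by exact_mod_cast hk1
    omega

end Pool.Agent.WTight
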